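import Pool.Agent.U498.TA.Asm

/-!
# A `C^1` diffeomorphism is equal on every ball to a product of elementary homeomorphisms
-/

set_option autoImplicit false

open Set Filter Topology Metric Function
open scoped ContDiff NNReal

namespace Pool.Agent.U498.TA

variable {n : ℕ}

/-- the first `i` coordinates -/
def proj (i : ℕ) (x : E n) : E n := WithLp.toLp 2 (fun j : Fin n => if (j : ℕ) < i then x j else 0)

theorem proj_apply (i : ℕ) (x : E n) (j : Fin n) :
    proj i x j = if (j : ℕ) < i then x j else 0 := rfl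

theorem proj_sub (i : ℕ) (x y : E n) : proj i x - proj i y = proj i (x - y) := by
  ext j
  simp only [PiLp.sub_apply, proj_apply]
  split_ifs <;> simp

theorem norm_proj (i : ℕ) (x : E n) : ‖proj i x‖ ≤ ‖x‖ := by
  rw [EuclideanSpace.norm_eq, EuclideanSpace.norm_eq]
  apply Real.sqrt_le_sqrt
  apply Finset.sum_le_sum
  intro j _
  rw [proj_apply]
  split_ifs
  · exact le_rfl
  · simp; positivity

theorem proj_zero (x : E n) : proj 0 x = 0 := by
  ext j
  simp [proj_apply]

theorem proj_top (x : E n) : proj n x = x := by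
  ext j
  simp [proj_apply]

theorem proj_succ (i : Fin n) (x : E n) :
    proj ((i : ℕ) + 1) x = proj i x + EuclideanSpace.single i (x i) := by
  ext j
  simp only [PiLp.add_apply, proj_apply, PiLp.single_apply]
  rcases lt_trichotomy (j : ℕ) (i : ℕ) with h | h | h
  · have h2 : j ≠ i := fun h3 => by rw [h3] at h; exact lt_irrefl _ h
    simp [h, h2, Nat.lt_succ_of_lt h]
  · have h2 : j = i := Fin.ext h
    subst h2
    simp
  · have h2 : j ≠ i := fun h3 => by rw [h3] at h; exact lt_irrefl _ h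
    simp [h2, not_lt.2 h.le]
    omega

/-- perturbations of the identity with a small Lipschitz constant -/
theorem pert (u : E n → E n) (hu : ∀ x y, ‖u x - u y‖ ≤ 1 / 3 * ‖x - y‖) :
    ∃ F : E n ≃ₜ E n, ∀ x, F x = x + u x := by
  have h1 : ApproximatesLinearOn (fun x => x + u x)
      ((ContinuousLinearEquiv.refl ℝ (E n) : E n ≃L[ℝ] E n) : E n →L[ℝ] E n) univ (1 / 3) := by
    intro x _ y _
    have : (x + u x) - (y + u y) -
        ((ContinuousLinearEquiv.refl ℝ (E n) : E n ≃L[ℝ] E n) : E n →L[ℝ] E n) (x - y) =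
        u x - u y := by
      simp only [ContinuousLinearEquiv.coe_refl, ContinuousLinearMap.coe_id', id]
      abel
    rw [this]
    simpa using hu x y
  have hc : Subsingleton (E n) ∨ (1 / 3 : ℝ≥0) <
      ‖((ContinuousLinearEquiv.refl ℝ (E n)).symm : E n →L[ℝ] E n)‖₊⁻¹ := by
    rcases subsingleton_or_nontrivial (E n) with h | h
    · exact Or.inl h
    · right
      have h3 : ‖((ContinuousLinearEquiv.refl ℝ (E n)).symm : E n →L[ℝ] E n)‖₊ = 1 := by
        have : ((ContinuousLinearEquiv.refl ℝ (E n)).symm : E n →L[ℝ] E n) =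
            ContinuousLinearMap.id ℝ (E n) := rfl
        rw [this]
        exact ContinuousLinearMap.nnnorm_id
      rw [h3, inv_one]
      rw [div_lt_one (by norm_num)]
      norm_num
  exact ⟨h1.toHomeomorph _ hc, fun x => rfl⟩

/-- perturbations of the identity are products of elementary homeomorphisms -/
theorem pert_mem (u : E n → E n) (hu : ∀ x y, ‖u x - u y‖ ≤ 1 / 3 * ‖x - y‖) :
    ∃ k ∈ Submonoid.closure (Sm n), ∀ x, k x = x + u x := by
  have key : ∀ i : ℕ, i ≤ n → ∃ k ∈ Submonoid.closure (Sm n), ∀ x, k x = x + proj i (u x) := by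
    intro i
    induction i with
    | zero => exact fun _ => ⟨1, one_mem _, fun x => by rw [proj_zero, add_zero]; rfl⟩
    | succ i ih =>
        intro hi
        obtain ⟨k, hk, h1⟩ := ih (by omega)
        have hlip : ∀ j : ℕ, ∀ x y, ‖proj j (u x) - proj j (u y)‖ ≤ 1 / 3 * ‖x - y‖ := by
          intro j x y
          rw [proj_sub]
          exact (norm_proj _ _).trans (hu x y)
        obtain ⟨F, hF⟩ := pert (fun x => proj (i + 1) (u x)) (hlip (i + 1))
        refine ⟨F * k⁻¹ * k, ?_, fun x => ?_⟩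
        · refine mul_mem (Submonoid.subset_closure ?_) hk
          refine ⟨⟨i, by omega⟩, fun y => u (k⁻¹ y) ⟨i, by omega⟩, fun y => ?_, Or.inl
            ⟨1 / 2, ?_, ?_⟩⟩
          · show F (k⁻¹ y) = _
            rw [hF]
            have h3 : k (k⁻¹ y) = y := k.apply_symm_apply y
            have h4 := h1 (k⁻¹ y)
            rw [h3] at h4
            have h5 := proj_succ (⟨i, by omega⟩ : Fin n) (u (k⁻¹ y))
            rw [h5]
            rw [← add_assoc]
            rw [← h4]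
          · rw [div_lt_one (by norm_num)]
            norm_num
          · apply LipschitzWith.of_dist_le_mul
            intro y y'
            have h3 : k (k⁻¹ y) = y := k.apply_symm_apply y
            have h3' : k (k⁻¹ y') = y' := k.apply_symm_apply y'
            obtain ⟨x, hx⟩ : ∃ x, x = k⁻¹ y := ⟨_, rfl⟩
            obtain ⟨x', hx'⟩ : ∃ x', x' = k⁻¹ y' := ⟨_, rfl⟩
            have h4 : y - y' = (x - x') + (proj i (u x) - proj i (u x')) := by
              rw [← h3, ← h3', ← hx, ← hx', h1, h1]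
              abel
            have h5 : ‖x - x'‖ ≤ 3 / 2 * ‖y - y'‖ := by
              have h6 : ‖x - x'‖ ≤ ‖y - y'‖ + 1 / 3 * ‖x - x'‖ := by
                calc ‖x - x'‖ = ‖(y - y') - (proj i (u x) - proj i (u x'))‖ := by
                      rw [h4]; congr 1; abel
                  _ ≤ ‖y - y'‖ + ‖proj i (u x) - proj i (u x')‖ := norm_sub_le _ _
                  _ ≤ ‖y - y'‖ + 1 / 3 * ‖x - x'‖ := by gcongr; exact hlip i x x'
              linarith
            rw [← hx, ← hx', Real.dist_eq, dist_eq_norm]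
            have h7 : |u x ⟨i, by omega⟩ - u x' ⟨i, by omega⟩| ≤ ‖u x - u x'‖ := by
              have := PiLp.norm_apply_le (u x - u x') (⟨i, by omega⟩ : Fin n)
              simpa using this
            have h8 := hu x x'
            have : ((1 / 2 : ℝ≥0) : ℝ) = 1 / 2 := by norm_num
            rw [this]
            linarith
        · rw [inv_mul_cancel_right]
          exact hF x
  obtain ⟨k, hk, h1⟩ := key n le_rfl
  exact ⟨k, hk, fun x => by rw [h1, proj_top]⟩

/-- maps close to the identity on a set -/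
theorem set_mem : ∃ δ : ℝ, 0 < δ ∧ ∀ (S : Set (E n)) (κ : E n → E n),
    (∀ x ∈ S, ∀ y ∈ S, ‖(κ x - x) - (κ y - y)‖ ≤ δ * ‖x - y‖) →
    ∃ k ∈ Submonoid.closure (Sm n), ∀ x ∈ S, k x = κ x := by
  obtain ⟨C, hC⟩ : ∃ C : ℝ≥0, C = lipschitzExtensionConstant (E n) := ⟨_, rfl⟩
  have hC0 : 0 < C := by rw [hC]; exact lipschitzExtensionConstant_pos _
  have hC0' : (0 : ℝ) < C := by exact_mod_cast hC0
  refine ⟨1 / (3 * C), by positivity, fun S κ h => ?_⟩
  obtain ⟨K, hK⟩ : ∃ K : ℝ≥0, (K : ℝ) = 1 / (3 * C) := ⟨⟨1 / (3 * C), by positivity⟩, rfl⟩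
  have h1 : LipschitzOnWith K (fun x => κ x - x) S := by
    apply LipschitzOnWith.of_dist_le_mul
    intro x hx y hy
    rw [dist_eq_norm, dist_eq_norm, hK]
    exact h x hx y hy
  obtain ⟨u, hu, huS⟩ := h1.extend_finite_dimension
  rw [← hC] at hu
  obtain ⟨k, hk, h2⟩ := pert_mem u (fun x y => by
    have := hu.dist_le_mul x y
    rw [dist_eq_norm, dist_eq_norm, NNReal.coe_mul, hK] at this
    refine this.trans (le_of_eq ?_)
    field_simp)
  refine ⟨k, hk, fun x hx => ?_⟩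
  rw [h2, ← huS hx]
  simp

/-- a step of the isotopy -/
theorem step {δ : ℝ} (hδ : ∀ (S : Set (E n)) (κ : E n → E n),
    (∀ x ∈ S, ∀ y ∈ S, ‖(κ x - x) - (κ y - y)‖ ≤ δ * ‖x - y‖) →
    ∃ k ∈ Submonoid.closure (Sm n), ∀ x ∈ S, k x = κ x)
    {B : Set (E n)} {a b : E n → E n} {c η : ℝ} (hc : 0 < c) (hη : η ≤ δ * c) (hδ0 : 0 ≤ δ)
    (ha : ∀ x ∈ B, ∀ y ∈ B, c * ‖x - y‖ ≤ ‖a x - a y‖)
    (hab : ∀ x ∈ B, ∀ y ∈ B, ‖(b x - a x) - (b y - a y)‖ ≤ η * ‖x - y‖) :
    ∃ k ∈ Submonoid.closure (Sm n), ∀ x ∈ B, k (a x) = b x := by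
  have hinj : InjOn a B := by
    intro x hx y hy hxy
    have := ha x hx y hy
    rw [hxy, sub_self, norm_zero] at this
    have h2 : ‖x - y‖ ≤ 0 := by
      by_contra hcon
      push Not at hcon
      nlinarith
    exact sub_eq_zero.1 (norm_le_zero_iff.1 h2)
  obtain ⟨k, hk, h1⟩ := hδ (a '' B) (fun y => b (invFunOn a B y)) (by
    rintro _ ⟨x, hx, rfl⟩ _ ⟨y, hy, rfl⟩
    have e1 : invFunOn a B (a x) = x := hinj.leftInvOn_invFunOn hx
    have e2 : invFunOn a B (a y) = y := hinj.leftInvOn_invFunOn hy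
    simp only [e1, e2]
    calc ‖(b x - a x) - (b y - a y)‖ ≤ η * ‖x - y‖ := hab x hx y hy
      _ ≤ δ * c * ‖x - y‖ := by gcongr
      _ = δ * (c * ‖x - y‖) := by ring
      _ ≤ δ * ‖a x - a y‖ := by gcongr; exact ha x hx y hy)
  refine ⟨k, hk, fun x hx => ?_⟩
  rw [h1 _ (mem_image_of_mem a hx)]
  simp only [hinj.leftInvOn_invFunOn hx]

theorem lip_ball {f : E n → E n} (hf : ContDiff ℝ 1 f) (R : ℝ) :
    ∃ L : ℝ, 0 < L ∧ ∀ x, ‖x‖ ≤ R → ∀ y, ‖y‖ ≤ R → ‖f x - f y‖ ≤ L * ‖x - y‖ := by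
  obtain ⟨C, hC⟩ := (isCompact_closedBall (0 : E n) R).exists_bound_of_continuousOn
    (f := fun p => fderiv ℝ f p) (hf.continuous_fderiv (by norm_num)).continuousOn
  refine ⟨max C 1, by positivity, fun x hx y hy => ?_⟩
  have h1 := (convex_closedBall (0 : E n) R).norm_image_sub_le_of_norm_hasFDerivWithin_le
    (f := f) (f' := fun p => fderiv ℝ f p) (C := C) (fun p _ =>
      ((hf.differentiable (by norm_num)) p).hasFDerivAt.hasFDerivWithinAt) hC
    (x := y) (y := x) (by simpa using hy) (by simpa using hx)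
  exact h1.trans (by gcongr; exact le_max_left _ _)

/-- **Job A.** -/
theorem t_A (hL : S_LIN) : S_A := by
  intro n h hh R₀
  obtain ⟨R, hR⟩ : ∃ R, R = max R₀ 0 := ⟨_, rfl⟩
  have hR0 : 0 ≤ R := by rw [hR]; exact le_max_right _ _
  -- it is enough to work on the ball of radius `R`
  suffices H : ∃ g ∈ Submonoid.closure (Sm n), ∀ p, ‖p‖ ≤ R → g p = h p by
    obtain ⟨g, hg, h1⟩ := H
    exact ⟨g, hg, fun p hp => h1 p (hp.trans (by rw [hR]; exact le_max_left _ _))⟩
  obtain ⟨δ, hδ0, hδ⟩ := set_mem (n := n)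
  have hd : Differentiable ℝ h := hh.1.differentiable (by norm_num)
  have hd' : Differentiable ℝ h.symm := hh.2.differentiable (by norm_num)
  -- the derivative at the centre
  have hA1 : (fderiv ℝ h.symm (h 0)).comp (fderiv ℝ h 0) = ContinuousLinearMap.id ℝ (E n) := by
    have h1 : HasFDerivAt (fun x => h.symm (h x)) ((fderiv ℝ h.symm (h 0)).comp (fderiv ℝ h 0)) 0 :=
      (hd' (h 0)).hasFDerivAt.comp (0 : E n) (hd 0).hasFDerivAt
    have h2 : (fun x => h.symm (h x)) = id := by funext x; simp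
    rw [h2] at h1
    exact h1.unique (hasFDerivAt_id _)
  have hA2 : (fderiv ℝ h 0).comp (fderiv ℝ h.symm (h 0)) = ContinuousLinearMap.id ℝ (E n) := by
    have h0 : h.symm (h 0) = 0 := h.symm_apply_apply 0
    have h1 : HasFDerivAt (fun x => h (h.symm x))
        ((fderiv ℝ h (h.symm (h 0))).comp (fderiv ℝ h.symm (h 0))) (h 0) :=
      (hd (h.symm (h 0))).hasFDerivAt.comp (h 0) (hd' (h 0)).hasFDerivAt
    have h2 : (fun x => h (h.symm x)) = id := by funext x; simp
    rw [h2, h0] at h1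
    exact h1.unique (hasFDerivAt_id _)
  let A : E n ≃L[ℝ] E n := ContinuousLinearEquiv.equivOfInverse (fderiv ℝ h 0)
    (fderiv ℝ h.symm (h 0)) (fun x => by simpa using congrArg (fun T => T x) hA1)
    (fun x => by simpa using congrArg (fun T => T x) hA2)
  have hA : ∀ x, A x = fderiv ℝ h 0 x := fun x => rfl
  -- the isotopy
  obtain ⟨H, hH⟩ : ∃ H : ℝ → E n → E n, H = fun t x =>
      if t = 0 then h 0 + A x else h 0 + t⁻¹ • (h (t • x) - h 0) := ⟨_, rfl⟩
  have hH0 : ∀ x, H 0 x = h 0 + A x := fun x => by simp [hH]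
  have hHt : ∀ t, t ≠ 0 → ∀ x, H t x = h 0 + t⁻¹ • (h (t • x) - h 0) := by
    intro t ht x
    simp [hH, ht]
  have hHd : ∀ t x, HasFDerivAt (H t) (fderiv ℝ h (t • x)) x := by
    intro t x
    by_cases ht : t = 0
    · subst ht
      have e1 : H 0 = fun x => h 0 + A x := funext hH0
      rw [e1, zero_smul]
      have : HasFDerivAt (fun x => h 0 + A x) (A : E n →L[ℝ] E n) x :=
        (A.hasFDerivAt).const_add (h 0)
      exact this
    · have e1 : H t = fun x => h 0 + t⁻¹ • (h (t • x) - h 0) := funext (hHt t ht)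
      rw [e1]
      have h1 : HasFDerivAt (fun y : E n => t • y) (t • ContinuousLinearMap.id ℝ (E n)) x :=
        (hasFDerivAt_id x).const_smul t
      have h2 : HasFDerivAt (fun y : E n => h (t • y))
          ((fderiv ℝ h (t • x)).comp (t • ContinuousLinearMap.id ℝ (E n))) x :=
        HasFDerivAt.comp x (hd (t • x)).hasFDerivAt h1
      have h3 := ((h2.sub_const (h 0)).const_smul t⁻¹).const_add (h 0)
      have e2 : fderiv ℝ h (t • x) =
          t⁻¹ • (fderiv ℝ h (t • x)).comp (t • ContinuousLinearMap.id ℝ (E n)) := by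
        ext1 v
        simp [smul_smul, ht]
      rw [e2]
      exact h3
  -- lower bound
  obtain ⟨C, hC⟩ := bdd h R
  obtain ⟨L, hL0, hLip⟩ := lip_ball hh.2 (max C 0)
  obtain ⟨Λ, hΛ⟩ : ∃ Λ, Λ = max L ‖(A.symm : E n →L[ℝ] E n)‖ := ⟨_, rfl⟩
  have hΛ0 : 0 < Λ := by rw [hΛ]; exact lt_of_lt_of_le hL0 (le_max_left _ _)
  have hlow : ∀ t, 0 ≤ t → t ≤ 1 → ∀ x ∈ closedBall (0 : E n) R, ∀ y ∈ closedBall (0 : E n) R,
      Λ⁻¹ * ‖x - y‖ ≤ ‖H t x - H t y‖ := by
    intro t ht ht1 x hx y hy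
    rw [inv_mul_le_iff₀ hΛ0]
    rcases ht.eq_or_lt with ht0 | ht0
    · rw [← ht0, hH0, hH0]
      have e1 : h 0 + A x - (h 0 + A y) = A (x - y) := by rw [map_sub]; abel
      rw [e1]
      calc ‖x - y‖ = ‖(A.symm : E n →L[ℝ] E n) (A (x - y))‖ := by simp
        _ ≤ ‖(A.symm : E n →L[ℝ] E n)‖ * ‖A (x - y)‖ := ContinuousLinearMap.le_opNorm _ _
        _ ≤ Λ * ‖A (x - y)‖ := by gcongr; rw [hΛ]; exact le_max_right _ _
    · rw [hHt t ht0.ne', hHt t ht0.ne']
      have e1 : h 0 + t⁻¹ • (h (t • x) - h 0) - (h 0 + t⁻¹ • (h (t • y) - h 0)) =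
          t⁻¹ • (h (t • x) - h (t • y)) := by
        rw [smul_sub, smul_sub, smul_sub]; abel
      rw [e1, norm_smul, Real.norm_eq_abs, abs_of_pos (inv_pos.2 ht0)]
      have hb : ∀ z ∈ closedBall (0 : E n) R, ‖h (t • z)‖ ≤ max C 0 := by
        intro z hz
        refine (hC _ ?_).trans (le_max_left _ _)
        rw [norm_smul, Real.norm_eq_abs, abs_of_pos ht0]
        have : ‖z‖ ≤ R := by simpa using hz
        nlinarith [norm_nonneg z]
      have h1 := hLip (h (t • x)) (hb x hx) (h (t • y)) (hb y hy)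
      rw [h.symm_apply_apply, h.symm_apply_apply, ← smul_sub, norm_smul, Real.norm_eq_abs,
        abs_of_pos ht0] at h1
      have h2 : L * ‖h (t • x) - h (t • y)‖ ≤ Λ * ‖h (t • x) - h (t • y)‖ := by
        gcongr
        rw [hΛ]; exact le_max_left _ _
      calc ‖x - y‖ = t⁻¹ * (t * ‖x - y‖) := by field_simp
        _ ≤ t⁻¹ * (Λ * ‖h (t • x) - h (t • y)‖) :=
            mul_le_mul_of_nonneg_left (h1.trans h2) (inv_nonneg.2 ht0.le)
        _ = Λ * (t⁻¹ * ‖h (t • x) - h (t • y)‖) := by ring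
  -- continuity of the derivative
  have huc : UniformContinuousOn (fun p => fderiv ℝ h p) (closedBall (0 : E n) R) :=
    (isCompact_closedBall _ _).uniformContinuousOn_of_continuous
      (hh.1.continuous_fderiv (by norm_num)).continuousOn
  have hη : 0 < δ * Λ⁻¹ := by positivity
  obtain ⟨ρ, hρ, hu⟩ := Metric.uniformContinuousOn_iff.1 huc (δ * Λ⁻¹) hη
  have hup : ∀ s t, 0 ≤ s → s ≤ 1 → 0 ≤ t → t ≤ 1 → |s - t| * R < ρ →
      ∀ x ∈ closedBall (0 : E n) R, ∀ y ∈ closedBall (0 : E n) R,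
      ‖(H s x - H t x) - (H s y - H t y)‖ ≤ δ * Λ⁻¹ * ‖x - y‖ := by
    intro s t hs hs1 ht ht1 hst x hx y hy
    have h1 := (convex_closedBall (0 : E n) R).norm_image_sub_le_of_norm_hasFDerivWithin_le
      (f := fun p => H s p - H t p) (f' := fun p => fderiv ℝ h (s • p) - fderiv ℝ h (t • p))
      (C := δ * Λ⁻¹) (fun p _ => ((hHd s p).sub (hHd t p)).hasFDerivWithinAt) (fun p hp => by
        have hpR : ‖p‖ ≤ R := by simpa using hp
        rw [← dist_eq_norm]
        have hb : ∀ r : ℝ, 0 ≤ r → r ≤ 1 → r • p ∈ closedBall (0 : E n) R := by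
          intro r hr hr1
          rw [mem_closedBall_zero_iff, norm_smul, Real.norm_eq_abs, abs_of_nonneg hr]
          nlinarith [norm_nonneg p]
        refine (hu _ (hb s hs hs1) _ (hb t ht ht1) ?_).le
        rw [dist_eq_norm, ← sub_smul, norm_smul, Real.norm_eq_abs]
        exact lt_of_le_of_lt (by gcongr) hst) (x := y) (y := x) hy hx
    exact h1
  obtain ⟨N, hN⟩ := exists_nat_gt (R / ρ)
  have hN0 : (0 : ℝ) < N + 1 := by positivity
  have hNR : (N + 1 : ℝ)⁻¹ * R < ρ := by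
    rw [inv_mul_lt_iff₀ hN0]
    rw [div_lt_iff₀ hρ] at hN
    linarith
  have key : ∀ j : ℕ, j ≤ N + 1 → ∃ k ∈ Submonoid.closure (Sm n),
      ∀ x ∈ closedBall (0 : E n) R, k x = H ((j : ℝ) * (N + 1 : ℝ)⁻¹) x := by
    intro j
    induction j with
    | zero =>
        intro _
        obtain ⟨k, hk, h1⟩ := hL n A
        obtain ⟨k', hk', h2⟩ := pert_mem (fun _ : E n => h 0) (by intro x y; simp)
        refine ⟨k' * k, mul_mem hk' hk, fun x _ => ?_⟩
        show k' (k x) = _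
        rw [h2, h1]
        simp only [Nat.cast_zero, zero_mul]
        rw [hH0, add_comm]
    | succ j ih =>
        intro hj
        obtain ⟨k, hk, h1⟩ := ih (by omega)
        have hb : ∀ m : ℕ, m ≤ N + 1 → (0 : ℝ) ≤ (m : ℝ) * (N + 1 : ℝ)⁻¹ ∧
            (m : ℝ) * (N + 1 : ℝ)⁻¹ ≤ 1 := by
          intro m hm
          refine ⟨by positivity, ?_⟩
          rw [← div_eq_mul_inv, div_le_one hN0]
          exact_mod_cast hm
        obtain ⟨k', hk', h2⟩ := step hδ (B := closedBall (0 : E n) R)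
          (a := H ((j : ℝ) * (N + 1 : ℝ)⁻¹)) (b := H (((j + 1 : ℕ) : ℝ) * (N + 1 : ℝ)⁻¹))
          (c := Λ⁻¹) (η := δ * Λ⁻¹) (inv_pos.2 hΛ0) le_rfl hδ0.le
          (hlow _ (hb j (by omega)).1 (hb j (by omega)).2)
          (hup _ _ (hb (j + 1) hj).1 (hb (j + 1) hj).2 (hb j (by omega)).1 (hb j (by omega)).2 (by
            have e1 : ((j + 1 : ℕ) : ℝ) * (N + 1 : ℝ)⁻¹ - (j : ℝ) * (N + 1 : ℝ)⁻¹ =
                (N + 1 : ℝ)⁻¹ := by push_cast; ring
            rw [e1, abs_of_pos (inv_pos.2 hN0)]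
            exact hNR))
        refine ⟨k' * k, mul_mem hk' hk, fun x hx => ?_⟩
        show k' (k x) = _
        rw [h1 x hx, h2 x hx]
  obtain ⟨k, hk, h1⟩ := key (N + 1) le_rfl
  refine ⟨k, hk, fun p hp => ?_⟩
  rw [h1 p (by simpa using hp)]
  have e1 : ((N + 1 : ℕ) : ℝ) * (N + 1 : ℝ)⁻¹ = 1 := by
    push_cast
    exact mul_inv_cancel₀ hN0.ne'
  rw [e1, hHt 1 one_ne_zero]
  simp

end Pool.Agent.U498.TA
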