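import Pool.Agent.U498.TA.Jobs

/-!
# Assembly
-/

set_option autoImplicit false

open Set Filter Topology Metric Function
open scoped ContDiff NNReal

namespace Pool.Agent.U498.TA

variable {n : ℕ}

theorem Lim.of_mem {D : Set (E n ≃ₜ E n)} {h : E n ≃ₜ E n} (hh : h ∈ D) : Lim D h :=
  fun R ε hε => ⟨h, hh, fun p _ => by simpa using hε.le⟩

theorem Lim.mono {D D' : Set (E n ≃ₜ E n)} (hD : D ⊆ D') {h : E n ≃ₜ E n} (hh : Lim D h) :
    Lim D' h := by
  intro R ε hε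
  obtain ⟨g, hg, h1⟩ := hh R ε hε
  exact ⟨g, hD hg, h1⟩

theorem Lim.lim {D : Set (E n ≃ₜ E n)} {h : E n ≃ₜ E n} (hh : Lim {a | Lim D a} h) : Lim D h := by
  intro R ε hε
  obtain ⟨g, hg, h1⟩ := hh R (ε / 2) (by positivity)
  obtain ⟨k, hk, h2⟩ := hg R (ε / 2) (by positivity)
  refine ⟨k, hk, fun p hp => ?_⟩
  calc ‖k p - h p‖ = ‖(k p - g p) + (g p - h p)‖ := by congr 1; abel
    _ ≤ ‖k p - g p‖ + ‖g p - h p‖ := norm_add_le _ _
    _ ≤ ε / 2 + ε / 2 := add_le_add (h2 p hp) (h1 p hp)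
    _ = ε := by ring

theorem bdd (b : E n ≃ₜ E n) (R : ℝ) : ∃ C : ℝ, ∀ p, ‖p‖ ≤ R → ‖b p‖ ≤ C := by
  obtain ⟨C, hC⟩ := (isCompact_closedBall (0 : E n) R).exists_bound_of_continuousOn
    (f := fun p => b p) b.continuous.continuousOn
  exact ⟨C, fun p hp => hC p (by simpa using hp)⟩

theorem Lim.mul {D : Set (E n ≃ₜ E n)} (hD : ∀ a ∈ D, ∀ b ∈ D, a * b ∈ D) {a b : E n ≃ₜ E n}
    (ha : Lim D a) (hb : Lim D b) : Lim D (a * b) := by
  intro R ε hε
  obtain ⟨C, hC⟩ := bdd b R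
  have huc : UniformContinuousOn (fun p => a p) (closedBall (0 : E n) (C + 1)) :=
    (isCompact_closedBall _ _).uniformContinuousOn_of_continuous a.continuous.continuousOn
  obtain ⟨δ, hδ, hu⟩ := Metric.uniformContinuousOn_iff.1 huc (ε / 2) (by positivity)
  obtain ⟨a', ha', h1⟩ := ha (C + 1) (ε / 2) (by positivity)
  obtain ⟨b', hb', h2⟩ := hb R (min (δ / 2) 1) (by positivity)
  refine ⟨a' * b', hD _ ha' _ hb', fun p hp => ?_⟩
  have h3 := h2 p hp
  have h4 : ‖b' p‖ ≤ C + 1 := by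
    calc ‖b' p‖ = ‖b p + (b' p - b p)‖ := by congr 1; abel
      _ ≤ ‖b p‖ + ‖b' p - b p‖ := norm_add_le _ _
      _ ≤ C + 1 := add_le_add (hC p hp) (h3.trans (min_le_right _ _))
  have h5 : ‖a (b' p) - a (b p)‖ < ε / 2 := by
    rw [← dist_eq_norm]
    refine hu _ (by simpa using h4) _ (by simpa using (hC p hp).trans (by linarith)) ?_
    rw [dist_eq_norm]
    exact lt_of_le_of_lt (h3.trans (min_le_left _ _)) (by linarith)
  show ‖a' (b' p) - a (b p)‖ ≤ ε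
  calc ‖a' (b' p) - a (b p)‖ = ‖(a' (b' p) - a (b' p)) + (a (b' p) - a (b p))‖ := by congr 1; abel
    _ ≤ ‖a' (b' p) - a (b' p)‖ + ‖a (b' p) - a (b p)‖ := norm_add_le _ _
    _ ≤ ε / 2 + ε / 2 := add_le_add (h1 _ h4) h5.le
    _ = ε := by ring

theorem approx_iff (G : Subgroup (E n ≃ₜ E n)) (h : E n ≃ₜ E n) :
    Approx G h ↔ Lim (G : Set (E n ≃ₜ E n)) h := by
  constructor
  · intro H R ε hε
    obtain ⟨g, hg, h1⟩ := H (closedBall 0 R) isBounded_closedBall ε hε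
    exact ⟨g, hg, fun p hp => (h1 p (by simpa using hp)).le⟩
  · intro H B hB ε hε
    obtain ⟨R, hR⟩ := hB.subset_closedBall 0
    obtain ⟨g, hg, h1⟩ := H R (ε / 2) (by positivity)
    exact ⟨g, hg, fun p hp => lt_of_le_of_lt (h1 p (by simpa using hR hp)) (by linarith)⟩

theorem diffeo_mul {r : WithTop ℕ∞} {a b : E n ≃ₜ E n} (ha : IsDiffeo r a) (hb : IsDiffeo r b) :
    IsDiffeo r (a * b) :=
  ⟨ha.1.comp hb.1, hb.2.comp ha.2⟩

theorem diffeo_one {r : WithTop ℕ∞} : IsDiffeo r (1 : E n ≃ₜ E n) := ⟨contDiff_id, contDiff_id⟩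

theorem typeA_inv {a : E n ≃ₜ E n} (ha : a ∈ TypeA n) : a⁻¹ ∈ TypeA n := by
  obtain ⟨i, h⟩ := ha
  refine ⟨i, fun x j hj => ?_⟩
  have := h (a⁻¹ x) j hj
  have h2 : a (a⁻¹ x) = x := a.apply_symm_apply x
  rw [h2] at this
  exact this.symm

theorem sm_typeA : Sm n ⊆ TypeA n := by
  rintro g ⟨i, v, h1, -⟩
  refine ⟨i, fun x j hj => ?_⟩
  rw [h1 x]
  simp [hj]

/-- limits of smooth diffeomorphisms -/
theorem lim_of_typeA (hSM : S_SM) {g : E n ≃ₜ E n} (hg : g ∈ Subgroup.closure (TypeA n)) :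
    Lim {d : E n ≃ₜ E n | IsDiffeo ∞ d} g := by
  have hmul : ∀ a ∈ {d : E n ≃ₜ E n | IsDiffeo ∞ d}, ∀ b ∈ {d : E n ≃ₜ E n | IsDiffeo ∞ d},
      a * b ∈ {d : E n ≃ₜ E n | IsDiffeo ∞ d} := fun a ha b hb => diffeo_mul ha hb
  have key : ∀ g ∈ Subgroup.closure (TypeA n), Lim {d : E n ≃ₜ E n | IsDiffeo ∞ d} g ∧
      Lim {d : E n ≃ₜ E n | IsDiffeo ∞ d} g⁻¹ := by
    intro g hg
    induction hg using Subgroup.closure_induction with
    | mem x hx => exact ⟨hSM n x hx, hSM n _ (typeA_inv hx)⟩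
    | one => exact ⟨Lim.of_mem diffeo_one, by rw [inv_one]; exact Lim.of_mem diffeo_one⟩
    | mul x y _ _ hx hy =>
        refine ⟨Lim.mul hmul hx.1 hy.1, ?_⟩
        rw [mul_inv_rev]
        exact Lim.mul hmul hy.2 hx.2
    | inv x _ hx => exact ⟨hx.2, by rw [inv_inv]; exact hx.1⟩
  exact (key g hg).1

theorem diffeo_typeA (hA : S_A) {h : E n ≃ₜ E n} (hh : IsDiffeo 1 h) (R : ℝ) :
    ∃ g ∈ Subgroup.closure (TypeA n), ∀ p, ‖p‖ ≤ R → g p = h p := by
  obtain ⟨g, hg, h1⟩ := hA n h hh R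
  refine ⟨g, ?_, h1⟩
  have : Submonoid.closure (Sm n) ≤ (Subgroup.closure (TypeA n)).toSubmonoid := by
    rw [Submonoid.closure_le]
    exact sm_typeA.trans Subgroup.subset_closure
  exact this hg

theorem diffeo_infty {h : E n ≃ₜ E n} (hh : IsDiffeo ∞ h) : IsDiffeo 1 h :=
  ⟨hh.1.of_le (by exact_mod_cast le_top), hh.2.of_le (by exact_mod_cast le_top)⟩

/-- **Type A.** -/
theorem mainA (hA : S_A) (hSM : S_SM) (h : E n ≃ₜ E n) :
    Approx (Subgroup.closure (TypeA n)) h ↔ Lim {d : E n ≃ₜ E n | IsDiffeo ∞ d} h := by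
  rw [approx_iff]
  constructor
  · intro H
    refine Lim.lim (Lim.mono (fun g hg => ?_) H)
    exact lim_of_typeA hSM hg
  · intro H
    refine Lim.lim (Lim.mono (fun g hg => ?_) H)
    intro R ε hε
    obtain ⟨k, hk, h1⟩ := diffeo_typeA hA (diffeo_infty hg) R
    exact ⟨k, hk, fun p hp => by rw [h1 p hp]; simpa using hε.le⟩

/-- two-variable homeomorphisms of type A are products of homeomorphisms of type B -/
theorem two_var {i j k : Fin 3} (hij : i ≠ j) (hik : i ≠ k) (hjk : j ≠ k) {g : E 3 ≃ₜ E 3}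
    (hg : ∀ x l, l ≠ i → g x l = x l) (hg2 : ∀ x y : E 3, x i = y i → x j = y j → g x i = g y i) :
    g ∈ Subgroup.closure TypeB := by
  -- the permutation `k ↦ i`, `i ↦ j`, `j ↦ k` of the coordinates
  have hcov : ∀ m : Fin 3, m = i ∨ m = j ∨ m = k := by
    intro m
    omega
  obtain ⟨π, hπi, hπj, hπk⟩ : ∃ π : Equiv.Perm (Fin 3), π i = j ∧ π j = k ∧ π k = i := by
    clear hg hg2 hcov
    revert i j k
    decide
  let P : E 3 ≃ₜ E 3 :=
    (LinearIsometryEquiv.piLpCongrLeft 2 ℝ ℝ π.symm).toHomeomorph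
  have hP : ∀ (x : E 3) (m : Fin 3), P x m = x (π m) := by
    intro x m
    simp [P, LinearIsometryEquiv.piLpCongrLeft_apply]
  have hPB : P ∈ TypeB := by
    intro m x y h
    rw [hP, hP]
    apply h
    rcases hcov m with rfl | rfl | rfl
    · rw [hπi]; exact hij.symm
    · rw [hπj]; exact hjk.symm
    · rw [hπk]; exact hik
  have hPg : P * g ∈ TypeB := by
    intro m x y h
    show P (g x) m = P (g y) m
    rw [hP, hP]
    rcases hcov m with rfl | rfl | rfl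
    · rw [hπi, hg _ _ hij.symm, hg _ _ hij.symm]
      exact h _ hij.symm
    · rw [hπj, hg _ _ hik.symm, hg _ _ hik.symm]
      exact h _ hjk.symm
    · rw [hπk]
      exact hg2 x y (h _ hik) (h _ hjk)
  have := mul_mem (inv_mem (Subgroup.subset_closure hPB)) (Subgroup.subset_closure hPg)
  rwa [inv_mul_cancel_left] at this

/-- elementary homeomorphisms are limits of products of homeomorphisms of type B -/
theorem sm_typeB (h1 : S_TB1) (h2 : S_TB2) {g : E 3 ≃ₜ E 3} (hg : g ∈ Sm 3) :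
    Lim (Subgroup.closure TypeB : Set (E 3 ≃ₜ E 3)) g := by
  obtain ⟨i, v, hv, ⟨K, hK, hL⟩ | ⟨j, c, hj, hc⟩ | ⟨c, hc⟩⟩ := hg
  · exact h2 h1 i v K hK hL g hv
  · apply Lim.of_mem
    obtain ⟨k, hk⟩ : ∃ k : Fin 3, i ≠ k ∧ j ≠ k := by
      clear hv hc
      revert i j
      decide
    refine two_var hj.symm hk.1 hk.2 (fun x l hl => ?_) (fun x y hx hy => ?_)
    · rw [hv]; simp [hl]
    · rw [hv, hv]; simp [hc, hx, hy]
  · apply Lim.of_mem
    obtain ⟨j, k, hk⟩ : ∃ j k : Fin 3, i ≠ j ∧ i ≠ k ∧ j ≠ k := by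
      clear hv hc
      revert i
      decide
    refine two_var hk.1 hk.2.1 hk.2.2 (fun x l hl => ?_) (fun x y hx hy => ?_)
    · rw [hv]; simp [hl]
    · rw [hv, hv]; simp [hc, hx]

/-- **Type B.** -/
theorem mainB (hA : S_A) (hSM : S_SM) (h1 : S_TB1) (h2 : S_TB2) (h : E 3 ≃ₜ E 3)
    (hh : Lim {d : E 3 ≃ₜ E 3 | IsDiffeo ∞ d} h) : Approx (Subgroup.closure TypeB) h := by
  rw [approx_iff]
  refine Lim.lim (Lim.mono (fun g hg => ?_) hh)
  refine Lim.lim (fun R ε hε => ?_)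
  obtain ⟨k, hk, h3⟩ := hA 3 g (diffeo_infty hg) R
  refine ⟨k, ?_, fun p hp => by rw [h3 p hp]; simpa using hε.le⟩
  have hmul : ∀ a ∈ (Subgroup.closure TypeB : Set (E 3 ≃ₜ E 3)),
      ∀ b ∈ (Subgroup.closure TypeB : Set (E 3 ≃ₜ E 3)),
      a * b ∈ (Subgroup.closure TypeB : Set (E 3 ≃ₜ E 3)) := fun a ha b hb => mul_mem ha hb
  show Lim _ k
  clear h3
  induction hk using Submonoid.closure_induction with
  | mem x hx => exact sm_typeB h1 h2 hx
  | one => exact Lim.of_mem (one_mem _)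
  | mul x y _ _ hx hy => exact Lim.mul hmul hx hy

end Pool.Agent.U498.TA
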