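import Pool.Agent.U498.TA.NL
import Pool.Agent.U901.TA.TB2
import Pool.Agent.U603.TA.SM
import Pool.Agent.U394.TA.LIN
import Pool.Agent.U171.TA.TB1

/-!
# The final theorems
-/

set_option autoImplicit false

open Set Filter Topology Metric Function
open scoped ContDiff NNReal

namespace Pool.Agent.U498.TA

variable {n : ℕ}

theorem s_LIN : S_LIN := Pool.Agent.U394.TA.t_LIN
theorem s_SM : S_SM := Pool.Agent.U603.TA.t_SM
theorem s_TB1 : S_TB1 := Pool.Agent.U171.TA.t_TB1
theorem s_TB2 : S_TB2 := Pool.Agent.U901.TA.t_TB2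
theorem s_A : S_A := t_A s_LIN

/-- near-linear homeomorphisms are equal to products of elementary ones on bounded sets -/
theorem fin_near (h : E n ≃ₜ E n) (hh : ∀ x, NearLinearAt (1 / (8 * √n)) h x) (R : ℝ) :
    ∃ g ∈ Submonoid.closure (Sm n), ∀ p, ‖p‖ ≤ R → g p = h p := by
  rcases Nat.eq_zero_or_pos n with hn | hn
  · subst hn
    exact ⟨1, one_mem _, fun p _ => Subsingleton.elim _ _⟩
  · exact near_linear s_LIN hn h hh R

theorem fin_near_typeA (h : E n ≃ₜ E n) (hh : ∀ x, NearLinearAt (1 / (8 * √n)) h x)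
    (B : Set (E n)) (hB : Bornology.IsBounded B) :
    ∃ g ∈ Subgroup.closure (TypeA n), ∀ p ∈ B, g p = h p := by
  obtain ⟨R, hR⟩ := hB.subset_closedBall 0
  obtain ⟨g, hg, h1⟩ := fin_near h hh R
  refine ⟨g, ?_, fun p hp => h1 p (by simpa using hR hp)⟩
  have : Submonoid.closure (Sm n) ≤ (Subgroup.closure (TypeA n)).toSubmonoid := by
    rw [Submonoid.closure_le]
    exact sm_typeA.trans Subgroup.subset_closure
  exact this hg

theorem diffeo_near' {h : E n ≃ₜ E n} (hh : IsDiffeo 1 h) (x : E n) :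
    NearLinearAt (1 / (8 * √n)) h x := by
  rcases Nat.eq_zero_or_pos n with hn | hn
  · subst hn
    exact ⟨ContinuousLinearEquiv.refl ℝ _, 1, one_pos, fun y _ z _ => by
      rw [Subsingleton.elim y z]; simp⟩
  · exact diffeo_near hh (by
      have : (0 : ℝ) < √n := Real.sqrt_pos.2 (by exact_mod_cast hn)
      positivity) x

/-- **Type A.** -/
theorem fin_tfae (h : E n ≃ₜ E n) :
    List.TFAE [Approx (Subgroup.closure (TypeA n)) h,
      Lim {d : E n ≃ₜ E n | IsDiffeo ∞ d} h,
      Lim {d : E n ≃ₜ E n | ∀ x, NearLinearAt (1 / (8 * √n)) d x} h] := by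
  tfae_have 1 ↔ 2 := mainA s_A s_SM h
  tfae_have 2 → 3 := Lim.mono fun d hd x => diffeo_near' (diffeo_infty hd) x
  tfae_have 3 → 1 := by
    intro H
    rw [approx_iff]
    refine Lim.lim (Lim.mono (fun g hg => ?_) H)
    intro R ε hε
    obtain ⟨k, hk, h1⟩ := fin_near_typeA g hg (closedBall 0 R) isBounded_closedBall
    exact ⟨k, hk, fun p hp => by
      rw [h1 p (by simpa using hp)]
      simpa using hε.le⟩
  tfae_finish

/-- **Type B.** -/
theorem fin_typeB (h : E 3 ≃ₜ E 3) (hh : Approx (Subgroup.closure (TypeA 3)) h) :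
    Approx (Subgroup.closure TypeB) h :=
  mainB s_A s_SM s_TB1 s_TB2 h ((mainA s_A s_SM h).1 hh)

end Pool.Agent.U498.TA
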