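import Mathlib

/-!
# Approximation by homeomorphisms which change one coordinate: definitions and the four jobs
-/

set_option autoImplicit false

open Set Filter Topology Metric Function
open scoped ContDiff NNReal

namespace Pool.Agent.U498.TA

/-- Euclidean space -/
abbrev E (n : ℕ) := EuclideanSpace ℝ (Fin n)

/-- the homeomorphisms of `E^n` which change only one coordinate -/
def TypeA (n : ℕ) : Set (E n ≃ₜ E n) := {g | ∃ i, ∀ x j, j ≠ i → g x j = x j}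

/-- the homeomorphisms `(x, y, z) ↦ (f (y, z), g (x, z), h (x, y))` of `E^3`: the coordinate `i` of
the image does not depend on the coordinate `i` of the point -/
def TypeB : Set (E 3 ≃ₜ E 3) :=
  {g | ∀ (i : Fin 3) (x y : E 3), (∀ j, j ≠ i → x j = y j) → g x i = g y i}

/-- `h` is approximable by the group `G`: uniformly on bounded sets -/
def Approx {n : ℕ} (G : Subgroup (E n ≃ₜ E n)) (h : E n ≃ₜ E n) : Prop :=
  ∀ B : Set (E n), Bornology.IsBounded B → ∀ ε > 0, ∃ g ∈ G, ∀ p ∈ B, ‖g p - h p‖ < ε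

/-- `C^r` diffeomorphisms -/
def IsDiffeo {n : ℕ} (r : WithTop ℕ∞) (h : E n ≃ₜ E n) : Prop :=
  ContDiff ℝ r h ∧ ContDiff ℝ r h.symm

/-- limits, uniform on bounded sets, of elements of a set `D` of homeomorphisms -/
def Lim {n : ℕ} (D : Set (E n ≃ₜ E n)) (h : E n ≃ₜ E n) : Prop :=
  ∀ R ε : ℝ, 0 < ε → ∃ g ∈ D, ∀ p, ‖p‖ ≤ R → ‖g p - h p‖ ≤ ε

/-- the elementary homeomorphisms `x ↦ x + v(x) e_i` -/
def Sm (n : ℕ) : Set (E n ≃ₜ E n) :=
  {g | ∃ (i : Fin n) (v : E n → ℝ), (∀ x, g x = x + EuclideanSpace.single i (v x)) ∧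
    ((∃ K : ℝ≥0, K < 1 ∧ LipschitzWith K v) ∨
      (∃ (j : Fin n) (c : ℝ), j ≠ i ∧ ∀ x, v x = c * x j) ∨ ∃ c : ℝ, ∀ x, v x = c * x i)}

/-- JOB LIN: every invertible linear map is a product of elementary ones. -/
def S_LIN : Prop :=
  ∀ (n : ℕ) (A : E n ≃L[ℝ] E n), ∃ g ∈ Submonoid.closure (Sm n), ∀ x, g x = A x

/-- JOB SM: every homeomorphism which changes only one coordinate is a limit of smooth
diffeomorphisms. -/
def S_SM : Prop :=
  ∀ (n : ℕ), ∀ g ∈ TypeA n, Lim {d : E n ≃ₜ E n | IsDiffeo ∞ d} g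

/-- JOB TB1: to first order, every time dependent field `w e_i` is generated by `TypeB`. -/
def S_TB1 : Prop :=
  ∀ (i : Fin 3) (w : ℝ × E 3 → ℝ), Continuous w → ∀ R η : ℝ, 0 < η →
    ∃ t₀ > 0, ∀ t, 0 ≤ t → t ≤ t₀ → ∀ s, 0 ≤ s → s ≤ 1 →
      ∃ g ∈ Subgroup.closure TypeB, ∀ x, ‖x‖ ≤ R →
        ‖g x - (x + EuclideanSpace.single i (t * w (s, x)))‖ ≤ η * t

/-- JOB TB2: Euler's scheme. -/
def S_TB2 : Prop :=
  S_TB1 → ∀ (i : Fin 3) (v : E 3 → ℝ) (K : ℝ≥0), K < 1 → LipschitzWith K v →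
    ∀ g : E 3 ≃ₜ E 3, (∀ x, g x = x + EuclideanSpace.single i (v x)) →
      Lim (Subgroup.closure TypeB : Set (E 3 ≃ₜ E 3)) g

/-- the main lemma on type A: a `C^1` diffeomorphism is equal, on every ball, to a product of
elementary homeomorphisms (written by helper498) -/
def S_A : Prop :=
  ∀ (n : ℕ) (h : E n ≃ₜ E n), IsDiffeo 1 h → ∀ R : ℝ,
    ∃ g ∈ Submonoid.closure (Sm n), ∀ p, ‖p‖ ≤ R → g p = h p

end Pool.Agent.U498.TA
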