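import Pool.Agent.U498.TA.A

/-!
# Homeomorphisms which are locally close to linear isomorphisms
-/

set_option autoImplicit false

open Set Filter Topology Metric Function
open scoped ContDiff NNReal

namespace Pool.Agent.U498.TA

variable {n : ℕ}

/-- near `x` the map `h` differs from a linear isomorphism `A` by a map with a small Lipschitz
constant, relative to `A` -/
def NearLinearAt (ε : ℝ) (h : E n → E n) (x : E n) : Prop :=
  ∃ (A : E n ≃L[ℝ] E n) (ρ : ℝ), 0 < ρ ∧ ∀ y ∈ ball x ρ, ∀ z ∈ ball x ρ,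
    ‖h y - h z - A (y - z)‖ ≤ ε * ‖A (y - z)‖

/-- maps close to the identity on a set, with an explicit constant -/
theorem set_mem' (hn : 0 < n) (S : Set (E n)) (κ : E n → E n)
    (h : ∀ x ∈ S, ∀ y ∈ S, ‖(κ x - x) - (κ y - y)‖ ≤ 1 / (3 * √n) * ‖x - y‖) :
    ∃ k ∈ Submonoid.closure (Sm n), ∀ x ∈ S, k x = κ x := by
  have hn0 : (0 : ℝ) < √n := Real.sqrt_pos.2 (by exact_mod_cast hn)
  obtain ⟨K, hK⟩ : ∃ K : ℝ≥0, (K : ℝ) = 1 / (3 * √n) := ⟨⟨1 / (3 * √n), by positivity⟩, rfl⟩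
  have h1 : ∀ i : Fin n, ∃ g : E n → ℝ, LipschitzWith K g ∧
      EqOn (fun x => (κ x - x) i) g S := by
    intro i
    apply LipschitzOnWith.extend_real
    apply LipschitzOnWith.of_dist_le_mul
    intro x hx y hy
    rw [Real.dist_eq, dist_eq_norm, hK]
    have h2 := PiLp.norm_apply_le ((κ x - x) - (κ y - y)) i
    simp only [PiLp.sub_apply, Real.norm_eq_abs] at h2 ⊢
    exact h2.trans (h x hx y hy)
  choose g hg hgS using h1
  obtain ⟨k, hk, h2⟩ := pert_mem (fun x => WithLp.toLp 2 (fun i => g i x)) (fun x y => by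
    rw [EuclideanSpace.norm_eq]
    have h3 : ∑ i : Fin n, ‖(WithLp.toLp 2 (fun i => g i x) - WithLp.toLp 2 (fun i => g i y) :
        E n) i‖ ^ 2 ≤ (1 / 3 * ‖x - y‖) ^ 2 := by
      have h4 : ∀ i ∈ Finset.univ, ‖(WithLp.toLp 2 (fun i => g i x) -
          WithLp.toLp 2 (fun i => g i y) : E n) i‖ ^ 2 ≤ (K * ‖x - y‖) ^ 2 := by
        intro i _
        gcongr
        have := (hg i).dist_le_mul x y
        rw [Real.dist_eq, dist_eq_norm] at this
        simpa using this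
      refine (Finset.sum_le_sum h4).trans ?_
      rw [Finset.sum_const, Finset.card_univ, Fintype.card_fin, nsmul_eq_mul, hK]
      have h5 : √(n : ℝ) ^ 2 = n := Real.sq_sqrt (by positivity)
      refine le_of_eq ?_
      calc (n : ℝ) * (1 / (3 * √n) * ‖x - y‖) ^ 2
          = (n : ℝ) * (1 / (9 * √n ^ 2) * ‖x - y‖ ^ 2) := by ring
        _ = (n : ℝ) * (1 / (9 * n) * ‖x - y‖ ^ 2) := by rw [h5]
        _ = (1 / 3 * ‖x - y‖) ^ 2 := by
          have hn' : (n : ℝ) ≠ 0 := by exact_mod_cast hn.ne'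
          field_simp
          ring
    calc _ ≤ √((1 / 3 * ‖x - y‖) ^ 2) := Real.sqrt_le_sqrt h3
      _ = 1 / 3 * ‖x - y‖ := Real.sqrt_sq (by positivity))
  refine ⟨k, hk, fun x hx => ?_⟩
  rw [h2]
  have h3 : (WithLp.toLp 2 (fun i => g i x) : E n) = κ x - x := by
    ext i
    exact (hgS i hx).symm
  rw [h3]
  abel

/-- a step, relative form -/
theorem step' (hn : 0 < n) {B : Set (E n)} {a b : E n → E n}
    (ha : InjOn a B)
    (hab : ∀ x ∈ B, ∀ y ∈ B, ‖(b x - a x) - (b y - a y)‖ ≤ 1 / (3 * √n) * ‖a x - a y‖) :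
    ∃ k ∈ Submonoid.closure (Sm n), ∀ x ∈ B, k (a x) = b x := by
  obtain ⟨k, hk, h1⟩ := set_mem' hn (a '' B) (fun y => b (invFunOn a B y)) (by
    rintro _ ⟨x, hx, rfl⟩ _ ⟨y, hy, rfl⟩
    have e1 : invFunOn a B (a x) = x := ha.leftInvOn_invFunOn hx
    have e2 : invFunOn a B (a y) = y := ha.leftInvOn_invFunOn hy
    simp only [e1, e2]
    exact hab x hx y hy)
  refine ⟨k, hk, fun x hx => ?_⟩
  rw [h1 _ (mem_image_of_mem a hx)]
  simp only [ha.leftInvOn_invFunOn hx]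

/-- the isotopy -/
noncomputable def HH (h : E n → E n) (t : ℝ) (x : E n) : E n := h 0 + t⁻¹ • (h (t • x) - h 0)

theorem HH_sub (h : E n → E n) (t : ℝ) (x y : E n) :
    HH h t x - HH h t y = t⁻¹ • (h (t • x) - h (t • y)) := by
  unfold HH
  rw [smul_sub, smul_sub, smul_sub]
  abel

theorem HH_inj {h : E n → E n} (hi : Injective h) {t : ℝ} (ht : 0 < t) : Injective (HH h t) := by
  intro x y hxy
  have h1 := HH_sub h t x y
  rw [hxy, sub_self] at h1
  have h2 : h (t • x) - h (t • y) = 0 := by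
    have := h1.symm
    rw [smul_eq_zero] at this
    exact this.resolve_left (inv_ne_zero ht.ne')
  exact smul_right_injective _ ht.ne' (hi (sub_eq_zero.1 h2))

theorem HH_scale {h : E n → E n} {e t : ℝ} (ht : 0 < t) (A : E n ≃L[ℝ] E n) (x y : E n)
    (h1 : ‖h (t • x) - h (t • y) - A (t • x - t • y)‖ ≤ e * ‖A (t • x - t • y)‖) :
    ‖HH h t x - HH h t y - A (x - y)‖ ≤ e * ‖A (x - y)‖ := by
  have e0 : A (t • x - t • y) = t • A (x - y) := by rw [← smul_sub, map_smul]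
  rw [e0] at h1
  have e1 : HH h t x - HH h t y - A (x - y) =
      t⁻¹ • (h (t • x) - h (t • y) - t • A (x - y)) := by
    rw [HH_sub, smul_sub t⁻¹ (h (t • x) - h (t • y)) (t • A (x - y)), smul_smul,
      inv_mul_cancel₀ ht.ne', one_smul]
  rw [e1, norm_smul, Real.norm_eq_abs, abs_of_pos (inv_pos.2 ht)]
  calc t⁻¹ * ‖h (t • x) - h (t • y) - t • A (x - y)‖
      ≤ t⁻¹ * (e * ‖t • A (x - y)‖) := mul_le_mul_of_nonneg_left h1 (inv_nonneg.2 ht.le)
    _ = t⁻¹ * (e * (t * ‖A (x - y)‖)) := by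
        rw [norm_smul, Real.norm_eq_abs, abs_of_pos ht]
    _ = e * ‖A (x - y)‖ := by field_simp

theorem HH_uc (h : E n ≃ₜ E n) {t₀ R : ℝ} (ht0 : 0 < t₀) :
    UniformContinuousOn (fun q : ℝ × E n => HH h q.1 q.2) (Icc t₀ 1 ×ˢ closedBall (0 : E n) R) := by
  apply (isCompact_Icc.prod (isCompact_closedBall _ _)).uniformContinuousOn_of_continuous
  have h1 : ContinuousOn (fun q : ℝ × E n => q.1⁻¹) (Icc t₀ 1 ×ˢ closedBall (0 : E n) R) :=
    continuousOn_fst.inv₀ (fun q hq => (ht0.trans_le hq.1.1).ne')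
  have h2 : ContinuousOn (fun q : ℝ × E n => h (q.1 • q.2) - h 0)
      (Icc t₀ 1 ×ˢ closedBall (0 : E n) R) :=
    ((h.continuous.comp (continuous_fst.smul continuous_snd)).sub
        continuous_const).continuousOn
  have h3 := ContinuousOn.smul h1 h2
  exact continuousOn_const.add h3

theorem far_bound (h : E n ≃ₜ E n) {R ρ : ℝ} (hρ : 0 < ρ) :
    ∃ m > 0, ∀ p ∈ closedBall (0 : E n) R, ∀ q ∈ closedBall (0 : E n) R,
      ρ ≤ ‖p - q‖ → m ≤ ‖h p - h q‖ := by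
  obtain ⟨Kc, hKc⟩ : ∃ Kc : Set (E n × E n), Kc =
      (closedBall (0 : E n) R ×ˢ closedBall (0 : E n) R) ∩
      {q | ρ ≤ ‖q.1 - q.2‖} := ⟨_, rfl⟩
  have hKcomp : IsCompact Kc := by
    rw [hKc]
    exact ((isCompact_closedBall _ _).prod (isCompact_closedBall _ _)).inter_right
      (isClosed_le continuous_const (continuous_fst.sub continuous_snd).norm)
  rcases Kc.eq_empty_or_nonempty with hem | hne
  · refine ⟨1, one_pos, fun p hp q hq hpq => ?_⟩
    exfalso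
    have : (p, q) ∈ Kc := by rw [hKc]; exact ⟨⟨hp, hq⟩, hpq⟩
    rw [hem] at this
    exact this
  · have hcf : ContinuousOn (fun q : E n × E n => ‖h q.1 - h q.2‖) Kc :=
      (((h.continuous.comp continuous_fst).sub (h.continuous.comp continuous_snd)).norm).continuousOn
    obtain ⟨q₀, hq₀, hmin⟩ := hKcomp.exists_isMinOn hne hcf
    have hmin' := isMinOn_iff.1 hmin
    have hpos : 0 < ‖h q₀.1 - h q₀.2‖ := by
      apply norm_pos_iff.2
      rw [sub_ne_zero]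
      intro hcon
      have h1 := h.injective hcon
      rw [hKc] at hq₀
      have h2 := hq₀.2
      simp only [mem_ofPred_eq, h1, sub_self, norm_zero] at h2
      linarith
    refine ⟨‖h q₀.1 - h q₀.2‖, hpos, fun p hp q hq hpq => ?_⟩
    have h3 : (p, q) ∈ Kc := by rw [hKc]; exact ⟨⟨hp, hq⟩, hpq⟩
    exact hmin' (p, q) h3

/-- near points -/
theorem near_pts {h : E n → E n} {e s t : ℝ} (he0 : 0 < e) (he1 : e ≤ 1 / 8) (hs : 0 < s)
    (ht : 0 < t) (A : E n ≃L[ℝ] E n) (x y : E n)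
    (h1 : ‖h (t • x) - h (t • y) - A (t • x - t • y)‖ ≤ e * ‖A (t • x - t • y)‖)
    (h2 : ‖h (s • x) - h (s • y) - A (s • x - s • y)‖ ≤ e * ‖A (s • x - s • y)‖) :
    ‖HH h s x - HH h t x - (HH h s y - HH h t y)‖ ≤ 8 / 3 * e * ‖HH h t x - HH h t y‖ := by
  have q1 := HH_scale ht A x y h1
  have q2 := HH_scale hs A x y h2
  have q3 : ‖A (x - y)‖ ≤ ‖HH h t x - HH h t y‖ + e * ‖A (x - y)‖ := by
    calc ‖A (x - y)‖ = ‖(HH h t x - HH h t y) - (HH h t x - HH h t y - A (x - y))‖ := by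
          congr 1; abel
      _ ≤ ‖HH h t x - HH h t y‖ + ‖HH h t x - HH h t y - A (x - y)‖ := norm_sub_le _ _
      _ ≤ _ := by gcongr
  have q4 : ‖HH h s x - HH h t x - (HH h s y - HH h t y)‖ ≤ 2 * e * ‖A (x - y)‖ := by
    calc ‖HH h s x - HH h t x - (HH h s y - HH h t y)‖
        = ‖(HH h s x - HH h s y - A (x - y)) - (HH h t x - HH h t y - A (x - y))‖ := by
          congr 1; abel
      _ ≤ ‖HH h s x - HH h s y - A (x - y)‖ + ‖HH h t x - HH h t y - A (x - y)‖ :=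
          norm_sub_le _ _
      _ ≤ e * ‖A (x - y)‖ + e * ‖A (x - y)‖ := add_le_add q2 q1
      _ = 2 * e * ‖A (x - y)‖ := by ring
  have q5 : ‖A (x - y)‖ ≤ 8 / 7 * ‖HH h t x - HH h t y‖ := by
    have := norm_nonneg (A (x - y))
    nlinarith
  refine q4.trans ?_
  have := norm_nonneg (HH h t x - HH h t y)
  nlinarith

/-- a small step of the isotopy -/
theorem small_step (hn : 0 < n) (h : E n ≃ₜ E n) {e R ρ₁ t₀ m τ : ℝ} (he0 : 0 < e) (he1 : e ≤ 1 / 8)
    (hed : 1 / (3 * √n) = 8 / 3 * e) (hρ₁ : 0 < ρ₁)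
    (hleb : ∀ p ∈ closedBall (0 : E n) R, ∃ A : E n ≃L[ℝ] E n,
      ∀ y ∈ ball p ρ₁, ∀ z ∈ ball p ρ₁, ‖h y - h z - A (y - z)‖ ≤ e * ‖A (y - z)‖)
    (ht0 : 0 < t₀) (hm : 0 < m)
    (hfar : ∀ p ∈ closedBall (0 : E n) R, ∀ q ∈ closedBall (0 : E n) R,
      t₀ * (ρ₁ / 2) ≤ ‖p - q‖ → m ≤ ‖h p - h q‖)
    (hτ : 0 < τ)
    (hu : ∀ x ∈ Icc t₀ 1 ×ˢ closedBall (0 : E n) R, ∀ y ∈ Icc t₀ 1 ×ˢ closedBall (0 : E n) R,
      dist x y < τ → dist (HH h x.1 x.2) (HH h y.1 y.2) < e * m)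
    {s t : ℝ} (htt : t₀ ≤ t) (hts : t ≤ s) (hs1 : s ≤ 1) (hst : s - t < τ)
    (hstR : (s - t) * R < ρ₁ / 2) :
    ∃ k ∈ Submonoid.closure (Sm n), ∀ x ∈ closedBall (0 : E n) R, k (HH h t x) = HH h s x := by
  have htpos : 0 < t := ht0.trans_le htt
  have hspos : 0 < s := htpos.trans_le hts
  apply step' hn ((HH_inj h.injective htpos).injOn)
  intro x hx y hy
  have hxR : ‖x‖ ≤ R := by simpa using hx
  have hyR : ‖y‖ ≤ R := by simpa using hy
  have hin : ∀ r : ℝ, 0 < r → r ≤ 1 → ∀ z ∈ closedBall (0 : E n) R,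
      r • z ∈ closedBall (0 : E n) R := by
    intro r hr hr1 z hz
    rw [mem_closedBall_zero_iff, norm_smul, Real.norm_eq_abs, abs_of_pos hr]
    have : ‖z‖ ≤ R := by simpa using hz
    nlinarith [norm_nonneg z]
  rw [hed]
  by_cases hxy : ‖x - y‖ < ρ₁ / 2
  · obtain ⟨A, hA⟩ := hleb (t • x) (hin t htpos (hts.trans hs1) x hx)
    have d1 : ‖s • x - t • x‖ < ρ₁ / 2 := by
      rw [← sub_smul, norm_smul, Real.norm_eq_abs, abs_of_nonneg (by linarith)]
      refine lt_of_le_of_lt ?_ hstR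
      exact mul_le_mul_of_nonneg_left hxR (by linarith)
    have d2 : ∀ r : ℝ, 0 < r → r ≤ 1 → ‖r • y - r • x‖ < ρ₁ / 2 := by
      intro r hr hr1
      rw [← smul_sub, norm_smul, Real.norm_eq_abs, abs_of_pos hr, norm_sub_rev]
      nlinarith [norm_nonneg (x - y)]
    have m1 : t • x ∈ ball (t • x) ρ₁ := mem_ball_self hρ₁
    have m2 : t • y ∈ ball (t • x) ρ₁ := by
      rw [mem_ball, dist_eq_norm]
      linarith [d2 t htpos (hts.trans hs1)]
    have m3 : s • x ∈ ball (t • x) ρ₁ := by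
      rw [mem_ball, dist_eq_norm]
      linarith
    have m4 : s • y ∈ ball (t • x) ρ₁ := by
      rw [mem_ball, dist_eq_norm]
      calc ‖s • y - t • x‖ = ‖(s • y - s • x) + (s • x - t • x)‖ := by congr 1; abel
        _ ≤ ‖s • y - s • x‖ + ‖s • x - t • x‖ := norm_add_le _ _
        _ < ρ₁ := by linarith [d2 s hspos hs1]
    exact near_pts he0 he1 hspos htpos A x y (hA _ m1 _ m2) (hA _ m3 _ m4)
  · push Not at hxy
    have f1 : m ≤ ‖HH h t x - HH h t y‖ := by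
      have f2 := hfar (t • x) (hin t htpos (hts.trans hs1) x hx) (t • y)
        (hin t htpos (hts.trans hs1) y hy) (by
          rw [← smul_sub, norm_smul, Real.norm_eq_abs, abs_of_pos htpos]
          exact mul_le_mul htt hxy (by positivity) htpos.le)
      rw [HH_sub, norm_smul, Real.norm_eq_abs, abs_of_pos (inv_pos.2 htpos)]
      have f3 : 1 ≤ t⁻¹ := (one_le_inv₀ htpos).2 (hts.trans hs1)
      nlinarith [norm_nonneg (h (t • x) - h (t • y))]
    have f4 : ∀ z ∈ closedBall (0 : E n) R, ‖HH h s z - HH h t z‖ < e * m := by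
      intro z hz
      have h1 := hu (s, z) ⟨⟨htt.trans hts, hs1⟩, hz⟩ (t, z) ⟨⟨htt, hts.trans hs1⟩, hz⟩ (by
        rw [Prod.dist_eq, dist_self, Real.dist_eq, abs_of_nonneg (by linarith)]
        exact max_lt hst hτ)
      rwa [dist_eq_norm] at h1
    have f5 : 8 / 3 * e * m ≤ 8 / 3 * e * ‖HH h t x - HH h t y‖ :=
      mul_le_mul_of_nonneg_left f1 (by positivity)
    have f6 : ‖HH h s x - HH h t x - (HH h s y - HH h t y)‖ ≤
        ‖HH h s x - HH h t x‖ + ‖HH h s y - HH h t y‖ := norm_sub_le _ _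
    have f7 := f4 x hx
    have f8 := f4 y hy
    have f9 := mul_pos he0 hm
    linarith

theorem start_step (hL : S_LIN) (hn : 0 < n) (h : E n ≃ₜ E n) {e R ρ₁ t₀ : ℝ} (he0 : 0 < e)
    (hed : 1 / (3 * √n) = 8 / 3 * e)
    (A : E n ≃L[ℝ] E n)
    (hA : ∀ y ∈ ball (0 : E n) ρ₁, ∀ z ∈ ball (0 : E n) ρ₁,
      ‖h y - h z - A (y - z)‖ ≤ e * ‖A (y - z)‖)
    (ht0 : 0 < t₀) (htR : t₀ * R < ρ₁) :
    ∃ k ∈ Submonoid.closure (Sm n), ∀ x ∈ closedBall (0 : E n) R, k x = HH h t₀ x := by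
  obtain ⟨k, hk, h1⟩ := hL n A
  obtain ⟨k', hk', h2⟩ := step' hn (B := closedBall (0 : E n) R) (a := fun x => A x) (b := HH h t₀)
    (A.injective.injOn) (by
      intro x hx y hy
      have hb : ∀ z ∈ closedBall (0 : E n) R, t₀ • z ∈ ball (0 : E n) ρ₁ := by
        intro z hz
        rw [mem_ball_zero_iff, norm_smul, Real.norm_eq_abs, abs_of_pos ht0]
        have h3 : ‖z‖ ≤ R := by simpa using hz
        exact lt_of_le_of_lt (mul_le_mul_of_nonneg_left h3 ht0.le) htR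
      have h3 := HH_scale ht0 A x y (hA _ (hb x hx) _ (hb y hy))
      have e1 : HH h t₀ x - A x - (HH h t₀ y - A y) = HH h t₀ x - HH h t₀ y - A (x - y) := by
        rw [map_sub]; abel
      rw [e1]
      have e2 : A x - A y = A (x - y) := by rw [map_sub]
      rw [e2, hed]
      have h4 := mul_nonneg he0.le (norm_nonneg (A (x - y)))
      linarith)
  refine ⟨k' * k, mul_mem hk' hk, fun x hx => ?_⟩
  show k' (k x) = _
  rw [h1, h2 x hx]

/-- **A homeomorphism which is near a linear isomorphism at every point is equal, on every ball,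
to a product of elementary homeomorphisms.** -/
theorem near_linear (hL : S_LIN) (hn : 0 < n) (h : E n ≃ₜ E n)
    (hh : ∀ x, NearLinearAt (1 / (8 * √n)) h x) (R₀ : ℝ) :
    ∃ g ∈ Submonoid.closure (Sm n), ∀ p, ‖p‖ ≤ R₀ → g p = h p := by
  obtain ⟨R, hR⟩ : ∃ R, R = max R₀ 1 := ⟨_, rfl⟩
  have hR0 : 1 ≤ R := by rw [hR]; exact le_max_right _ _
  have hRpos : 0 < R := by linarith
  suffices H : ∃ g ∈ Submonoid.closure (Sm n), ∀ p ∈ closedBall (0 : E n) R, g p = h p by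
    obtain ⟨g, hg, h1⟩ := H
    exact ⟨g, hg, fun p hp => h1 p (by
      rw [mem_closedBall_zero_iff, hR]
      exact hp.trans (le_max_left _ _))⟩
  have hs1 : (1 : ℝ) ≤ √n := by
    rw [Real.one_le_sqrt]
    exact_mod_cast hn
  obtain ⟨e, he⟩ : ∃ e : ℝ, e = 1 / (8 * √n) := ⟨_, rfl⟩
  have he0 : 0 < e := by rw [he]; positivity
  have he1 : e ≤ 1 / 8 := by
    rw [he]
    apply one_div_le_one_div_of_le (by norm_num)
    linarith
  have hed : 1 / (3 * √n) = 8 / 3 * e := by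
    rw [he]
    ring
  rw [← he] at hh
  -- the Lebesgue number
  obtain ⟨ρ₁, hρ₁, hleb⟩ : ∃ ρ₁ > 0, ∀ p ∈ closedBall (0 : E n) R, ∃ A : E n ≃L[ℝ] E n,
      ∀ y ∈ ball p ρ₁, ∀ z ∈ ball p ρ₁, ‖h y - h z - A (y - z)‖ ≤ e * ‖A (y - z)‖ := by
    choose A ρ hρ hA using hh
    obtain ⟨δ, hδ, h1⟩ := lebesgue_number_lemma_of_metric (s := closedBall (0 : E n) R)
      (c := fun x => ball x (ρ x)) (isCompact_closedBall _ _) (fun x => isOpen_ball)
      (fun x _ => mem_iUnion.2 ⟨x, mem_ball_self (hρ x)⟩)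
    refine ⟨δ, hδ, fun p hp => ?_⟩
    obtain ⟨x, hx⟩ := h1 p hp
    exact ⟨A x, fun y hy z hz => hA x y (hx hy) z (hx hz)⟩
  -- the start
  obtain ⟨t₀, ht₀⟩ : ∃ t₀ : ℝ, t₀ = min 1 (ρ₁ / (2 * R)) := ⟨_, rfl⟩
  have ht0 : 0 < t₀ := by rw [ht₀]; exact lt_min one_pos (by positivity)
  have ht1 : t₀ ≤ 1 := by rw [ht₀]; exact min_le_left _ _
  have htR : t₀ * R < ρ₁ := by
    have h1 : t₀ ≤ ρ₁ / (2 * R) := by rw [ht₀]; exact min_le_right _ _
    calc t₀ * R ≤ ρ₁ / (2 * R) * R := mul_le_mul_of_nonneg_right h1 hRpos.le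
      _ = ρ₁ / 2 := by field_simp
      _ < ρ₁ := by linarith
  obtain ⟨A₀, hA₀⟩ := hleb 0 (by rw [mem_closedBall_zero_iff, norm_zero]; exact hRpos.le)
  have hstart := start_step hL hn h he0 hed A₀ hA₀ ht0 htR
  obtain ⟨m, hm, hfar⟩ := far_bound h (R := R) (ρ := t₀ * (ρ₁ / 2)) (by positivity)
  obtain ⟨τ, hτ, hu⟩ := Metric.uniformContinuousOn_iff.1 (HH_uc h (R := R) ht0) (e * m)
    (by positivity)
  -- the chain
  obtain ⟨N, hN⟩ := exists_nat_gt (max (1 / τ) (R / (ρ₁ / 2)))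
  have hN0 : (0 : ℝ) < N + 1 := by positivity
  have hNτ : (N + 1 : ℝ)⁻¹ < τ := by
    have h1 : 1 / τ < N + 1 := lt_of_le_of_lt (le_max_left _ _) (hN.trans (by linarith))
    rw [div_lt_iff₀ hτ] at h1
    rw [inv_lt_iff_one_lt_mul₀ hN0]
    linarith
  have hNR : (N + 1 : ℝ)⁻¹ * R < ρ₁ / 2 := by
    have h1 : R / (ρ₁ / 2) < N + 1 := lt_of_le_of_lt (le_max_right _ _) (hN.trans (by linarith))
    rw [div_lt_iff₀ (by positivity)] at h1
    rw [inv_mul_lt_iff₀ hN0]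
    linarith
  obtain ⟨T, hT⟩ : ∃ T : ℕ → ℝ, T = fun j : ℕ => t₀ + (j : ℝ) * ((N + 1 : ℝ)⁻¹ * (1 - t₀)) := ⟨_, rfl⟩
  have hT0 : T 0 = t₀ := by simp [hT]
  have hTs : ∀ j, T (j + 1) = T j + (N + 1 : ℝ)⁻¹ * (1 - t₀) := by
    intro j
    simp only [hT]
    push_cast
    ring
  have hTl : T (N + 1) = 1 := by
    simp only [hT]
    push_cast
    rw [← mul_assoc, mul_inv_cancel₀ hN0.ne']
    ring
  have hinc : 0 ≤ (N + 1 : ℝ)⁻¹ * (1 - t₀) := mul_nonneg (inv_nonneg.2 hN0.le) (by linarith)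
  have hinc' : (N + 1 : ℝ)⁻¹ * (1 - t₀) ≤ (N + 1 : ℝ)⁻¹ := by
    have h1 := inv_nonneg.2 hN0.le
    nlinarith
  have hTmono : Monotone T := by
    apply monotone_nat_of_le_succ
    intro j
    rw [hTs]
    linarith
  have key : ∀ j : ℕ, j ≤ N + 1 → ∃ k ∈ Submonoid.closure (Sm n),
      ∀ x ∈ closedBall (0 : E n) R, k x = HH h (T j) x := by
    intro j
    induction j with
    | zero =>
        intro _
        rw [hT0]
        exact hstart
    | succ j ih =>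
        intro hj
        obtain ⟨k, hk, h1⟩ := ih (by omega)
        have a1 : t₀ ≤ T j := by rw [← hT0]; exact hTmono (by omega)
        have a2 : T (j + 1) ≤ 1 := by rw [← hTl]; exact hTmono hj
        have a3 : T (j + 1) - T j < τ := by rw [hTs]; linarith
        have a4 : (T (j + 1) - T j) * R < ρ₁ / 2 := by
          rw [hTs, add_sub_cancel_left]
          exact lt_of_le_of_lt (mul_le_mul_of_nonneg_right hinc' hRpos.le) hNR
        obtain ⟨k', hk', h2⟩ := small_step hn h he0 he1 hed hρ₁ hleb ht0 hm hfar hτ hu a1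
          (hTmono (Nat.le_succ j)) a2 a3 a4
        refine ⟨k' * k, mul_mem hk' hk, fun x hx => ?_⟩
        show k' (k x) = _
        rw [h1 x hx, h2 x hx]
  obtain ⟨k, hk, h1⟩ := key (N + 1) le_rfl
  refine ⟨k, hk, fun p hp => ?_⟩
  rw [h1 p hp, hTl]
  simp [HH]

/-- `C^1` diffeomorphisms are near linear isomorphisms at every point -/
theorem diffeo_near {h : E n ≃ₜ E n} (hh : IsDiffeo 1 h) {ε : ℝ} (hε : 0 < ε) (x : E n) :
    NearLinearAt ε h x := by
  have hd : Differentiable ℝ h := hh.1.differentiable (by norm_num)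
  have hd' : Differentiable ℝ h.symm := hh.2.differentiable (by norm_num)
  have hA1 : (fderiv ℝ h.symm (h x)).comp (fderiv ℝ h x) = ContinuousLinearMap.id ℝ (E n) := by
    have h1 : HasFDerivAt (fun x => h.symm (h x)) ((fderiv ℝ h.symm (h x)).comp (fderiv ℝ h x)) x :=
      (hd' (h x)).hasFDerivAt.comp x (hd x).hasFDerivAt
    have h2 : (fun x => h.symm (h x)) = id := by funext x; simp
    rw [h2] at h1
    exact h1.unique (hasFDerivAt_id _)
  have hA2 : (fderiv ℝ h x).comp (fderiv ℝ h.symm (h x)) = ContinuousLinearMap.id ℝ (E n) := by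
    have h0 : h.symm (h x) = x := h.symm_apply_apply x
    have h1 : HasFDerivAt (fun x => h (h.symm x))
        ((fderiv ℝ h (h.symm (h x))).comp (fderiv ℝ h.symm (h x))) (h x) :=
      (hd (h.symm (h x))).hasFDerivAt.comp (h x) (hd' (h x)).hasFDerivAt
    have h2 : (fun x => h (h.symm x)) = id := by funext x; simp
    rw [h2, h0] at h1
    exact h1.unique (hasFDerivAt_id _)
  let A : E n ≃L[ℝ] E n := ContinuousLinearEquiv.equivOfInverse (fderiv ℝ h x)
    (fderiv ℝ h.symm (h x)) (fun x => by simpa using congrArg (fun T => T x) hA1)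
    (fun x => by simpa using congrArg (fun T => T x) hA2)
  have hstr : HasStrictFDerivAt h (A : E n →L[ℝ] E n) x :=
    (hh.1.contDiffAt.hasStrictFDerivAt (by norm_num))
  have hc : 0 < ε / (‖(A.symm : E n →L[ℝ] E n)‖ + 1) := by positivity
  have h1 := hstr.isLittleO.def hc
  rw [Metric.eventually_nhds_iff] at h1
  obtain ⟨ρ, hρ, h2⟩ := h1
  refine ⟨A, ρ, hρ, fun y hy z hz => ?_⟩
  have h4 := h2 (y := (y, z)) (by
    rw [Prod.dist_eq]
    exact max_lt hy hz)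
  refine le_trans h4 ?_
  have h5 : ‖y - z‖ ≤ ‖(A.symm : E n →L[ℝ] E n)‖ * ‖A (y - z)‖ := by
    calc ‖y - z‖ = ‖(A.symm : E n →L[ℝ] E n) (A (y - z))‖ := by simp
      _ ≤ _ := ContinuousLinearMap.le_opNorm _ _
  show ε / (‖(A.symm : E n →L[ℝ] E n)‖ + 1) * ‖y - z‖ ≤ _
  rw [div_mul_eq_mul_div, div_le_iff₀ (by positivity)]
  have h6 := norm_nonneg (A (y - z))
  have h7 := norm_nonneg (A.symm : E n →L[ℝ] E n)
  have h8 := mul_le_mul_of_nonneg_left h5 hε.le
  have h9 := mul_nonneg hε.le h6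
  nlinarith

end Pool.Agent.U498.TA
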